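import Mathlib.Tactic.LinearCombination
import Mathlib.GroupTheory.Sylow
import Mathlib.Topology.Sheaves.Presheaf
import Mathlib.Algebra.Field.ZMod
import Mathlib.Data.Int.ConditionallyCompleteOrder
import Mathlib.Data.Int.Star
import Mathlib.Algebra.Order.Ring.Star
import Mathlib.Tactic.Bound
import Mathlib.Combinatorics.SimpleGraph.Basic
import Mathlib.Data.Rat.Star
import Mathlib.Tactic.Algebra.Basic

-- ======== part 0: formerly Pool.Agent.MP_ed46bc_co.Numeric
section MrgPart0

/-!
# The numerical rearrangement function for 2-groups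

`F n a` counts the solutions of `x₁ + ⋯ + x_s = 0` in `(ℤ/2)^n` with `x_i` in the initial segment
of size `a_i` (binary order); it is defined here by its low-bit recursion.
-/

namespace Pool.Agent.MP_ed46bc_co

open Finset

variable {ι : Type} [Fintype ι] [DecidableEq ι]

/-- Number of `x < a` with low bit `e`. -/
def half (a : ℕ) (e : ZMod 2) : ℕ := (a + 1 - e.val) / 2

/-- Vectors of bits with given parity. -/
def par (ι : Type) [Fintype ι] [DecidableEq ι] (π : ZMod 2) : Finset (ι → ZMod 2) :=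
  univ.filter fun ε => ∑ i, ε i = π

/-- The rearrangement function. -/
def F : ℕ → (ι → ℕ) → ℤ
  | 0, a => ∏ i, (a i : ℤ)
  | n + 1, a => ∑ ε ∈ par ι 0, F n fun i => half (a i) (ε i)

lemma zmod2 (e : ZMod 2) : e = 0 ∨ e = 1 := by revert e; decide

lemma half_zero (a : ℕ) : half a 0 = (a + 1) / 2 := by simp [half]

lemma half_one (a : ℕ) : half a 1 = a / 2 := by
  have : (1 : ZMod 2).val = 1 := rfl
  simp [half, this]

/-- The sign character of `ZMod 2`. -/
def sg (e : ZMod 2) : ℤ := if e = 0 then 1 else -1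

lemma sg_add (e f : ZMod 2) : sg (e + f) = sg e * sg f := by revert e f; decide

omit [Fintype ι] in
lemma sg_sum (s : Finset ι) (ε : ι → ZMod 2) : sg (∑ i ∈ s, ε i) = ∏ i ∈ s, sg (ε i) := by
  induction s using Finset.induction_on with
  | empty => simp [sg]
  | insert i s hi ih => rw [sum_insert hi, prod_insert hi, sg_add, ih]

lemma sum_zmod2 {M : Type} [AddCommMonoid M] (f : ZMod 2 → M) : ∑ e, f e = f 0 + f 1 := by
  have : (univ : Finset (ZMod 2)) = {0, 1} := by decide
  rw [this, sum_pair (by decide)]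

lemma sum_par (π : ZMod 2) (f : ι → ZMod 2 → ℤ) :
    2 * ∑ ε ∈ par ι π, ∏ i, f i (ε i) =
      ∏ i, (f i 0 + f i 1) + sg π * ∏ i, (f i 0 - f i 1) := by
  have h1 : ∏ i, (f i 0 + f i 1) = ∑ ε : ι → ZMod 2, ∏ i, f i (ε i) := by
    simp_rw [← sum_zmod2]
    rw [prod_univ_sum]; simp
  have h2 : ∏ i, (f i 0 - f i 1) = ∑ ε : ι → ZMod 2, ∏ i, (sg (ε i) * f i (ε i)) := by
    have : ∀ i, f i 0 - f i 1 = ∑ e, sg e * f i e := by
      intro i; rw [sum_zmod2]; simp [sg]; ring
    simp_rw [this]
    rw [prod_univ_sum]; simp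
  rw [h1, h2, par, sum_filter, mul_sum, mul_sum, ← sum_add_distrib]
  refine sum_congr rfl fun ε _ => ?_
  rw [prod_mul_distrib, ← sg_sum]
  generalize ∑ i, ε i = σ
  generalize ∏ i, f i (ε i) = P
  rcases zmod2 σ with rfl | rfl <;> rcases zmod2 π with rfl | rfl <;> simp [sg] <;> ring

lemma sum_par_shift {M : Type} [AddCommMonoid M] {δ : ι → ZMod 2} (hδ : δ ∈ par ι 0)
    (f : (ι → ZMod 2) → M) : ∑ ε ∈ par ι 0, f ε = ∑ η ∈ par ι 0, f (η + δ) := by
  have h2 : ∀ η : ι → ZMod 2, η + δ + δ = η := by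
    intro η; ext i
    simp only [Pi.add_apply]
    generalize η i = x; generalize δ i = y; revert x y; decide
  simp only [par, mem_filter, mem_univ, true_and] at hδ
  refine sum_nbij' (fun ε => ε + δ) (fun η => η + δ) ?_ ?_ ?_ ?_ ?_
  · intro ε hε
    simp only [par, mem_filter, mem_univ, true_and] at hε ⊢
    simp [sum_add_distrib, hε, hδ]
  · intro ε hε
    simp only [par, mem_filter, mem_univ, true_and] at hε ⊢
    simp [sum_add_distrib, hε, hδ]
  · intro ε _; exact h2 ε
  · intro ε _; exact h2 ε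
  · intro ε _; rw [h2]

lemma half_le {a n : ℕ} (h : a ≤ 2 ^ (n + 1)) (e : ZMod 2) : half a e ≤ 2 ^ n := by
  rw [pow_succ] at h
  rcases zmod2 e with rfl | rfl
  · rw [half_zero]; omega
  · rw [half_one]; omega

lemma half_add (a : ℕ) : half a 0 + half a 1 = a := by
  rw [half_zero, half_one]; omega

lemma half_key (x y : ℕ) (h d : ZMod 2) :
    half (half (half x 0 + half y 0) h + half (half x 1 + half y 1) (h + 1)) d =
      half (half (x + y) (h + d)) d := by
  have e1 : (0 : ZMod 2) + 1 = 1 := rfl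
  have e2 : (1 : ZMod 2) + 1 = 0 := rfl
  have e3 : (1 : ZMod 2) + 0 = 1 := rfl
  have e4 : (0 : ZMod 2) + 0 = 0 := rfl
  rcases zmod2 h with rfl | rfl <;> rcases zmod2 d with rfl | rfl <;>
    simp only [e1, e2, e3, e4, half_zero, half_one] <;> omega

/-- Superadditivity of `F` under arbitrary splits. -/
lemma superadd (n : ℕ) : ∀ (π : ZMod 2) (a : ι → ZMod 2 → ℕ), (∀ i e, a i e ≤ 2 ^ n) →
    ∑ ε ∈ par ι π, F n (fun i => a i (ε i)) ≤ F (n + 1) fun i => a i 0 + a i 1 := by
  induction n with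
  | zero =>
    intro π a ha
    have h1 := sum_par π fun i e => (a i e : ℤ)
    have h2 := sum_par 0 fun i e => (half (a i 0 + a i 1) e : ℤ)
    have h3 : ∀ i, (half (a i 0 + a i 1) 0 : ℤ) + half (a i 0 + a i 1) 1 = a i 0 + a i 1 := by
      intro i; exact_mod_cast half_add _
    have h4 : ∀ i, (half (a i 0 + a i 1) 0 : ℤ) - half (a i 0 + a i 1) 1 =
        |(a i 0 : ℤ) - a i 1| := by
      intro i
      have := ha i 0
      have := ha i 1
      rw [half_zero, half_one]
      simp only [pow_zero] at *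
      interval_cases a i 0 <;> interval_cases a i 1 <;> simp
    simp_rw [h3, h4] at h2
    rw [← abs_prod] at h2
    simp only [F]
    have h5 : sg π * ∏ i, ((a i 0 : ℤ) - a i 1) ≤ sg 0 * |∏ i, ((a i 0 : ℤ) - a i 1)| := by
      rcases zmod2 π with rfl | rfl
      · simp [sg, le_abs_self]
      · simp [sg, neg_le_abs]
    linarith
  | succ n ih =>
    intro π a ha
    set b : ι → ZMod 2 → ℕ := fun i d => half (a i 0) d + half (a i 1) d with hb
    have hb' : ∀ i d, b i d ≤ 2 ^ (n + 1) := by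
      intro i d
      have := half_le (ha i 0) d
      have := half_le (ha i 1) d
      simp only [hb, pow_succ]; omega
    calc ∑ ε ∈ par ι π, F (n + 1) (fun i => a i (ε i))
        = ∑ δ ∈ par ι 0, ∑ ε ∈ par ι π, F n (fun i => half (a i (ε i)) (δ i)) := by
          rw [sum_comm]; rfl
      _ ≤ ∑ δ ∈ par ι 0, F (n + 1) (fun i => b i (δ i)) :=
          sum_le_sum fun δ _ => ih π (fun i e => half (a i e) (δ i)) fun i e => half_le (ha i e) _
      _ = ∑ ε ∈ par ι 0, ∑ η ∈ par ι 0, F n (fun i => half (b i (ε i)) (η i + ε i)) :=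
          sum_congr rfl fun ε hε => sum_par_shift hε _
      _ = ∑ η ∈ par ι 0, ∑ ε ∈ par ι 0, F n (fun i => half (b i (ε i)) (η i + ε i)) := sum_comm
      _ ≤ ∑ η ∈ par ι 0, F (n + 1) (fun i => half (b i 0) (η i + 0) + half (b i 1) (η i + 1)) :=
          sum_le_sum fun η _ => ih 0 (fun i e => half (b i e) (η i + e))
            fun i e => half_le (hb' i e) _
      _ = ∑ η ∈ par ι 0, ∑ δ ∈ par ι 0,
            F n (fun i => half (half (a i 0 + a i 1) (η i + δ i)) (δ i)) := by
          refine sum_congr rfl fun η _ => sum_congr rfl fun δ _ => ?_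
          congr 1; ext i
          have := half_key (a i 0) (a i 1) (η i) (δ i)
          simpa only [add_zero] using this
      _ = ∑ δ ∈ par ι 0, ∑ ε ∈ par ι 0,
            F n (fun i => half (half (a i 0 + a i 1) (ε i)) (δ i)) := by
          rw [sum_comm]
          exact sum_congr rfl fun δ hδ => (sum_par_shift hδ fun ε =>
            F n (fun i => half (half (a i 0 + a i 1) (ε i)) (δ i))).symm
      _ = F (n + 1 + 1) fun i => a i 0 + a i 1 := by
          rw [sum_comm]; rfl

lemma F_small (n : ℕ) : ∀ a : ι → ℕ, (∀ i, a i ≤ 1) → F n a = ∏ i, (a i : ℤ) := by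
  induction n with
  | zero => intro a _; rfl
  | succ n ih =>
    intro a ha
    have h1 := sum_par 0 fun i e => (half (a i) e : ℤ)
    have h3 : ∀ i, (half (a i) 0 : ℤ) + half (a i) 1 = a i := by
      intro i; exact_mod_cast half_add _
    have h4 : ∀ i, (half (a i) 0 : ℤ) - half (a i) 1 = a i := by
      intro i
      have := ha i
      rw [half_zero, half_one]
      interval_cases a i <;> simp
    simp_rw [h3, h4] at h1
    have : F (n + 1) a = ∑ ε ∈ par ι 0, ∏ i, (half (a i) (ε i) : ℤ) := by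
      refine sum_congr rfl fun ε _ => ih _ fun i => ?_
      have := half_le (n := 0) (a := a i) ((ha i).trans (by norm_num)) (ε i)
      simpa using this
    rw [this]
    simp only [sg, if_true] at h1
    linarith

/-- Evaluation of `F` in a dyadic range, for an odd number of sets. -/
lemma F_eval (hι : Odd (Fintype.card ι)) (j : ℕ) : ∀ (n : ℕ) (a : ι → ℕ), j + 1 ≤ n →
    (∀ i, 2 ^ j ≤ a i ∧ a i ≤ 2 ^ (j + 1)) →
    2 ^ (j + 1) * F n a = ∏ i, (a i : ℤ) + ∏ i, (2 ^ (j + 1) - a i : ℤ) := by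
  induction j with
  | zero =>
    intro n a hn ha
    obtain ⟨n, rfl⟩ : ∃ m, n = m + 1 := ⟨n - 1, by omega⟩
    have h1 := sum_par 0 fun i e => (half (a i) e : ℤ)
    have h3 : ∀ i, (half (a i) 0 : ℤ) + half (a i) 1 = a i := by
      intro i; exact_mod_cast half_add _
    have h4 : ∀ i, (half (a i) 0 : ℤ) - half (a i) 1 = 2 ^ (0 + 1) - a i := by
      intro i
      obtain ⟨h, h'⟩ := ha i
      rw [half_zero, half_one]
      simp only [pow_zero, zero_add, pow_one] at h h'
      interval_cases a i <;> simp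
    simp_rw [h3, h4] at h1
    have : F (n + 1) a = ∑ ε ∈ par ι 0, ∏ i, (half (a i) (ε i) : ℤ) := by
      refine sum_congr rfl fun ε _ => F_small n _ fun i => ?_
      have := half_le (n := 0) (a := a i) (ha i).2 (ε i)
      simpa using this
    rw [this]
    simp only [sg, if_true, one_mul] at h1
    rw [← h1]; norm_num
  | succ j ih =>
    intro n a hn ha
    obtain ⟨n, rfl⟩ : ∃ m, n = m + 1 := ⟨n - 1, by omega⟩
    have h1 := sum_par 0 fun i e => (half (a i) e : ℤ)
    have h2 := sum_par 0 fun i e => (2 ^ (j + 1) - half (a i) e : ℤ)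
    have h3 : ∀ i, (half (a i) 0 : ℤ) + half (a i) 1 = a i := by
      intro i; exact_mod_cast half_add _
    have h4 : ∀ i, (2 ^ (j + 1) - half (a i) 0 : ℤ) + (2 ^ (j + 1) - half (a i) 1) =
        2 ^ (j + 1 + 1) - a i := by
      intro i; rw [← h3 i]; ring
    have h5 : ∀ i, (2 ^ (j + 1) - half (a i) 0 : ℤ) - (2 ^ (j + 1) - half (a i) 1) =
        (-1) * ((half (a i) 0 : ℤ) - half (a i) 1) := by
      intro i; ring
    simp_rw [h3] at h1
    simp_rw [h4, h5] at h2
    rw [prod_mul_distrib, prod_const, card_univ, hι.neg_one_pow] at h2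
    have : 2 ^ (j + 1) * F (n + 1) a = ∑ ε ∈ par ι 0, (∏ i, (half (a i) (ε i) : ℤ) +
        ∏ i, (2 ^ (j + 1) - half (a i) (ε i) : ℤ)) := by
      rw [F, mul_sum]
      refine sum_congr rfl fun ε _ => ih n _ (by omega) fun i => ⟨?_, half_le (ha i).2 _⟩
      have := (ha i).1
      rw [pow_succ] at this
      rcases zmod2 (ε i) with h | h <;> rw [h]
      · rw [half_zero]; omega
      · rw [half_one]; omega
    rw [sum_add_distrib] at this
    simp only [sg, if_true] at h1 h2
    rw [pow_succ (2 : ℤ) (j + 1)] at h2 ⊢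
    linarith

end Pool.Agent.MP_ed46bc_co

end MrgPart0

-- ======== part 1: formerly Pool.Agent.MP_ed46bc_co.Groups
section MrgPart1

/-!
# Counting solutions in finite abelian 2-groups
-/

namespace Pool.Agent.MP_ed46bc_co

open Finset

universe u

variable {G : Type u} [AddCommGroup G] [Fintype G] [DecidableEq G]

omit [DecidableEq G] in
lemma exists_addSubgroup_card {n : ℕ} (h : 2 ^ n ∣ Nat.card G) :
    ∃ K : AddSubgroup G, Nat.card K = 2 ^ n := by
  have : Fact (Nat.Prime 2) := ⟨Nat.prime_two⟩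
  obtain ⟨K, hK⟩ := Sylow.exists_subgroup_card_pow_prime (G := Multiplicative G) 2 (n := n)
    (by simpa using h)
  exact ⟨Subgroup.toAddSubgroup' K, hK⟩

omit [DecidableEq G] in
lemma exists_half {n : ℕ} (K : AddSubgroup G) (hK : Nat.card K = 2 ^ (n + 1)) :
    ∃ H : AddSubgroup G, H ≤ K ∧ Nat.card H = 2 ^ n ∧
      (∀ x ∈ K, ∀ y ∈ K, x + y ∈ H ↔ (x ∈ H ↔ y ∈ H)) ∧ ∃ v ∈ K, v ∉ H := by
  classical
  obtain ⟨H, hH⟩ := exists_addSubgroup_card (G := K) (n := n) (by rw [hK]; exact ⟨2, pow_succ _ _⟩)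
  have hi : H.index = 2 := by
    have := H.card_mul_index
    rw [hH, hK, pow_succ] at this
    exact Nat.eq_of_mul_eq_mul_left (by positivity) this
  have hmem : ∀ x (hx : x ∈ K), x ∈ H.map K.subtype ↔ (⟨x, hx⟩ : K) ∈ H := by
    intro x hx
    constructor
    · rintro ⟨y, hy, rfl⟩; exact hy
    · intro h; exact ⟨_, h, rfl⟩
  refine ⟨H.map K.subtype, AddSubgroup.map_subtype_le _, ?_, ?_, ?_⟩
  · rw [AddSubgroup.card_map_of_injective K.subtype_injective, hH]
  · intro x hx y hy
    rw [hmem _ (K.add_mem hx hy), hmem _ hx, hmem _ hy]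
    exact AddSubgroup.add_mem_iff_of_index_two hi (a := ⟨x, hx⟩) (b := ⟨y, hy⟩)
  · by_contra hcon
    push Not at hcon
    have : H = ⊤ := by
      rw [eq_top_iff]
      intro x _
      exact (hmem x.1 x.2).1 (hcon x.1 x.2)
    rw [this, AddSubgroup.index_top] at hi
    omega

omit [DecidableEq G] in
lemma card_le_of_coset (H : AddSubgroup G) (c : G) (A : Finset G) (h : ∀ x ∈ A, x - c ∈ H) :
    A.card ≤ Nat.card H := by
  classical
  rw [show A.card = Nat.card A by simp]
  refine Nat.card_le_card_of_injective (fun x : A => (⟨x.1 - c, h x.1 x.2⟩ : H)) ?_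
  intro x y hxy
  exact Subtype.ext (sub_left_injective (congrArg Subtype.val hxy))

variable {ι : Type} [Fintype ι] [DecidableEq ι]

/-- Number of solutions of `∑ x i = g` with `x i ∈ A i`. -/
def T (A : ι → Finset G) (g : G) : ℕ :=
  ((Fintype.piFinset A).filter fun x => ∑ i, x i = g).card

/-- The rearrangement inequality for finite abelian 2-groups. -/
lemma T_le (n : ℕ) : ∀ (K : AddSubgroup G), Nat.card K = 2 ^ n → ∀ (c : ι → G)
    (A : ι → Finset G), (∀ i, ∀ x ∈ A i, x - c i ∈ K) → ∀ g,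
    (T A g : ℤ) ≤ F n fun i => (A i).card := by
  induction n with
  | zero =>
    intro K _ c A _ g
    have : T A g ≤ ∏ i, (A i).card := by
      rw [← Fintype.card_piFinset]; exact card_filter_le _ _
    simp only [F]
    exact_mod_cast this
  | succ n ih =>
    intro K hK c A hA g
    classical
    obtain ⟨H, hHK, hH, hadd, v, hvK, hvH⟩ := exists_half K hK
    let e : G → ZMod 2 := fun x => if x ∈ H then 0 else 1
    have he : ∀ x ∈ K, ∀ y ∈ K, e (x + y) = e x + e y := by
      intro x hx y hy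
      have := hadd x hx y hy
      by_cases h1 : x ∈ H <;> by_cases h2 : y ∈ H <;> simp [e, this, h1, h2]
      rfl
    have hes : ∀ (s : Finset ι) (x : ι → G), (∀ i, x i ∈ K) →
        e (∑ i ∈ s, x i) = ∑ i ∈ s, e (x i) := by
      intro s x hx
      induction s using Finset.induction_on with
      | empty => simp [e]
      | insert i s hi ih' =>
        rw [sum_insert hi, sum_insert hi, he _ (hx i) _ (K.sum_mem fun j _ => hx j), ih']
    let A' : ι → ZMod 2 → Finset G := fun i d => (A i).filter fun x => e (x - c i) = d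
    let c' : ι → ZMod 2 → G := fun i d => if d = 0 then c i else c i + v
    have hA' : ∀ i d, ∀ x ∈ A' i d, x - c' i d ∈ H := by
      intro i d x hx
      obtain ⟨hx', hd⟩ := mem_filter.1 hx
      rcases zmod2 d with rfl | rfl
      · by_contra hcon
        simp only [c', if_true] at hcon
        simp [e, hcon] at hd
      · have h1 : x - c i ∉ H := by
          intro hcon
          simp [e, hcon] at hd
        have h2 : -v ∉ H := fun h => hvH (by simpa using H.neg_mem h)
        have := (hadd _ (hA i x hx') _ (K.neg_mem hvK)).2 (by simp [h1, h2])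
        simp only [c', one_ne_zero, if_false]
        convert this using 1
        abel
    have hcard : ∀ i, (A' i 0).card + (A' i 1).card = (A i).card := by
      intro i
      rw [← card_filter_add_card_filter_not (s := A i) (fun x => e (x - c i) = 0)]
      congr 2
      ext x
      simp only [A', mem_filter]
      rcases zmod2 (e (x - c i)) with h | h <;> simp [h]
    have h1 : T A g ≤ ∑ ε ∈ par ι (e (g - ∑ i, c i)), T (fun i => A' i (ε i)) g := by
      refine le_trans (card_le_card ?_) card_biUnion_le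
      intro x hx
      obtain ⟨hx, hg⟩ := mem_filter.1 hx
      rw [Fintype.mem_piFinset] at hx
      refine mem_biUnion.2 ⟨fun i => e (x i - c i), ?_, ?_⟩
      · simp only [par, mem_filter, mem_univ, true_and]
        rw [← hes univ _ fun i => hA i _ (hx i), sum_sub_distrib, hg]
      · refine mem_filter.2 ⟨Fintype.mem_piFinset.2 fun i => ?_, hg⟩
        exact mem_filter.2 ⟨hx i, rfl⟩
    calc (T A g : ℤ) ≤ ∑ ε ∈ par ι (e (g - ∑ i, c i)), (T (fun i => A' i (ε i)) g : ℤ) := by
          exact_mod_cast h1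
      _ ≤ ∑ ε ∈ par ι (e (g - ∑ i, c i)), F n (fun i => (A' i (ε i)).card) :=
          sum_le_sum fun ε _ => ih H hH (fun i => c' i (ε i)) _ (fun i => hA' i (ε i)) g
      _ ≤ F (n + 1) fun i => (A' i 0).card + (A' i 1).card :=
          superadd n _ (fun i d => (A' i d).card) fun i d =>
            hH ▸ card_le_of_coset H (c' i d) _ (hA' i d)
      _ = _ := by simp_rw [hcard]

/-- Number of representations of `g` as an ordered sum of `k` elements of `A`. -/
def R (A : Finset G) : ℕ → G → ℚ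
  | 0, g => if g = 0 then 1 else 0
  | k + 1, g => ∑ a ∈ A, R A k (g - a)

lemma R_eq (A : Finset G) (k : ℕ) : ∀ g, R A k g =
    ((univ.filter fun a : Fin k → G => (∀ i, a i ∈ A) ∧ ∑ i, a i = g).card : ℚ) := by
  induction k with
  | zero =>
    intro g
    by_cases h : g = 0
    · simp [R, h]
    · simp [R, h, Ne.symm h]
  | succ k ih =>
    intro g
    simp only [R, ih]
    rw [card_eq_sum_card_fiberwise (f := fun a : Fin (k + 1) → G => a 0) (t := A)]
    · push_cast
      refine sum_congr rfl fun a ha => ?_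
      congr 1
      refine card_nbij' (fun x => Fin.cons a x) (fun x => Fin.tail x) ?_ ?_ ?_ ?_
      · intro x hx
        simp only [coe_filter, mem_filter, mem_univ, true_and, Set.mem_ofPred_eq] at hx ⊢
        refine ⟨⟨fun i => ?_, ?_⟩, rfl⟩
        · refine Fin.cases ?_ (fun j => ?_) i
          · simpa using ha
          · simpa using hx.1 j
        · rw [Fin.sum_univ_succ]; simp [hx.2]
      · intro x hx
        simp only [coe_filter, mem_filter, mem_univ, true_and, Set.mem_ofPred_eq] at hx ⊢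
        obtain ⟨⟨h1, h2⟩, h3⟩ := hx
        refine ⟨fun i => h1 _, ?_⟩
        rw [Fin.sum_univ_succ, h3] at h2
        rw [← h2]; simp [Fin.tail]
      · intro x _; simp
      · intro x hx
        simp only [coe_filter, mem_filter, mem_univ, true_and, Set.mem_ofPred_eq] at hx
        rw [← hx.2]; simp
    · intro x hx
      simp only [coe_filter, mem_univ, true_and, Set.mem_ofPred_eq] at hx
      exact hx.1 0

omit [Fintype G] in
lemma sum_R (S : Finset G) (h0 : 0 ∈ S) (hS : ∀ x ∈ S, ∀ y ∈ S, x - y ∈ S) (A : Finset G)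
    (hA : A ⊆ S) (k : ℕ) : ∑ g ∈ S, R A k g = (A.card : ℚ) ^ k := by
  induction k with
  | zero => simp [R, h0]
  | succ k ih =>
    simp only [R]
    rw [sum_comm, pow_succ', ← nsmul_eq_mul, ← sum_const]
    refine sum_congr rfl fun a ha => ?_
    rw [← ih]
    refine sum_nbij' (fun g => g - a) (fun g => g - (0 - a)) ?_ ?_ ?_ ?_ ?_
    · intro g hg; exact hS _ hg _ (hA ha)
    · intro g hg; exact hS _ hg _ (hS _ h0 _ (hA ha))
    · intro g _; simp
    · intro g _; simp
    · intro g _; rfl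

omit [Fintype G] [DecidableEq G] in
lemma sum_shift (S : Finset G) (hS : ∀ x ∈ S, ∀ y ∈ S, x - y ∈ S) (f : G → ℚ) {g : G}
    (hg : g ∈ S) : ∑ a ∈ S, f (g - a) = ∑ a ∈ S, f a := by
  refine sum_nbij' (fun a => g - a) (fun a => g - a) ?_ ?_ ?_ ?_ ?_
  · intro a ha; exact hS _ hg _ ha
  · intro a ha; exact hS _ hg _ ha
  · intro a _; simp
  · intro a _; simp
  · intro a _; rfl

omit [Fintype G] in
lemma R_compl (S : Finset G) (h0 : 0 ∈ S) (hS : ∀ x ∈ S, ∀ y ∈ S, x - y ∈ S) (A : Finset G)
    (hA : A ⊆ S) (k : ℕ) : ∀ g ∈ S, R A k g - (A.card : ℚ) ^ k / S.card =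
      (-1) ^ k * (R (S \ A) k g - ((S \ A).card : ℚ) ^ k / S.card) := by
  have hN : (S.card : ℚ) ≠ 0 := by
    exact_mod_cast (card_pos.2 ⟨0, h0⟩).ne'
  induction k with
  | zero => intro g _; simp [R]
  | succ k ih =>
    intro g hg
    have h1 : ∑ a ∈ S, (R A k (g - a) - (A.card : ℚ) ^ k / S.card) = 0 := by
      rw [sum_sub_distrib, sum_shift S hS (R A k) hg, sum_R S h0 hS A hA, sum_const, nsmul_eq_mul]
      field_simp
      ring
    rw [← sum_sdiff hA] at h1
    have h2 : ∑ a ∈ S \ A, (R A k (g - a) - (A.card : ℚ) ^ k / S.card) =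
        (-1) ^ k * ∑ a ∈ S \ A, (R (S \ A) k (g - a) - ((S \ A).card : ℚ) ^ k / S.card) := by
      rw [mul_sum]
      exact sum_congr rfl fun a ha => ih _ (hS _ hg _ (mem_sdiff.1 ha).1)
    rw [h2, sum_sub_distrib, sum_sub_distrib, sum_const, sum_const, nsmul_eq_mul,
      nsmul_eq_mul] at h1
    simp only [R]
    rw [pow_succ, pow_succ, pow_succ]
    linear_combination h1

omit [Fintype G] in
/-- The complement identity for even `k`. -/
lemma P_compl (S : Finset G) (h0 : 0 ∈ S) (hS : ∀ x ∈ S, ∀ y ∈ S, x - y ∈ S) (A : Finset G)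
    (hA : A ⊆ S) {k : ℕ} (hk : Even k) :
    ∑ g ∈ A, R A k g + ∑ g ∈ S \ A, R (S \ A) k g =
      ((A.card : ℚ) ^ (k + 1) + ((S \ A).card : ℚ) ^ (k + 1)) / S.card := by
  have hN : (S.card : ℚ) ≠ 0 := by
    exact_mod_cast (card_pos.2 ⟨0, h0⟩).ne'
  have h1 : ∑ a ∈ S, (R A k a - (A.card : ℚ) ^ k / S.card) = 0 := by
    rw [sum_sub_distrib, sum_R S h0 hS A hA, sum_const, nsmul_eq_mul]
    field_simp
    ring
  rw [← sum_sdiff hA] at h1
  have h2 : ∑ a ∈ S \ A, (R A k a - (A.card : ℚ) ^ k / S.card) =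
      ∑ a ∈ S \ A, (R (S \ A) k a - ((S \ A).card : ℚ) ^ k / S.card) := by
    refine sum_congr rfl fun a ha => ?_
    rw [R_compl S h0 hS A hA k a (mem_sdiff.1 ha).1, hk.neg_one_pow, one_mul]
  rw [h2, sum_sub_distrib, sum_sub_distrib, sum_const, sum_const, nsmul_eq_mul,
    nsmul_eq_mul] at h1
  rw [pow_succ, pow_succ]
  linear_combination h1

lemma sum_R_eq (A : Finset G) (k : ℕ) : ∑ g ∈ A, R A k g =
    ((univ.filter fun a : Fin k → G => (∀ i, a i ∈ A) ∧ ∑ i, a i ∈ A).card : ℚ) := by
  rw [card_eq_sum_card_fiberwise (f := fun a : Fin k → G => ∑ i, a i) (t := A)]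
  · push_cast
    refine sum_congr rfl fun g hg => ?_
    rw [R_eq]
    congr 2
    ext a
    simp only [mem_filter, mem_univ, true_and]
    constructor
    · rintro ⟨h1, h2⟩; exact ⟨⟨h1, h2 ▸ hg⟩, h2⟩
    · rintro ⟨⟨h1, -⟩, h2⟩; exact ⟨h1, h2⟩
  · intro x hx
    simp only [coe_filter, mem_univ, true_and, Set.mem_ofPred_eq] at hx
    exact hx.2

/-- Upper bound for the number of `k`-fold sums of `B` lying in `B`. -/
lemma upper {e : ℕ} (hG : Fintype.card G = 2 ^ e) {k : ℕ} (hk : Even k) (B : Finset G) {j : ℕ}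
    (hj : j + 1 ≤ e) (h1 : 2 ^ j ≤ B.card) (h2 : B.card ≤ 2 ^ (j + 1)) :
    ∑ g ∈ B, R B k g ≤
      ((B.card : ℚ) ^ (k + 1) + (2 ^ (j + 1) - B.card : ℚ) ^ (k + 1)) / 2 ^ (j + 1) := by
  rw [sum_R_eq]
  let A : Fin (k + 1) → Finset G := Fin.cons (B.image Neg.neg) fun _ => B
  have hA : ∀ i, (A i).card = B.card := by
    intro i
    refine Fin.cases ?_ (fun j => ?_) i
    · simp only [A, Fin.cons_zero]; exact card_image_of_injective _ neg_injective
    · simp [A]
  have h3 : (univ.filter fun a : Fin k → G => (∀ i, a i ∈ B) ∧ ∑ i, a i ∈ B).card ≤ T A 0 := by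
    refine card_le_card_of_injOn (fun a => Fin.cons (-∑ i, a i) a) ?_ ?_
    · intro a ha
      simp only [coe_filter, mem_univ, true_and, Set.mem_ofPred_eq] at ha
      simp only [coe_filter, Fintype.mem_piFinset, Set.mem_ofPred_eq]
      refine ⟨fun i => ?_, ?_⟩
      · refine Fin.cases ?_ (fun j => ?_) i
        · simp only [A, Fin.cons_zero]; exact mem_image_of_mem _ ha.2
        · simpa [A] using ha.1 j
      · rw [Fin.sum_univ_succ]; simp
    · intro a _ b _ hab
      exact (Fin.cons_injective2 hab).2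
  have h4 := T_le e ⊤ (by simpa using hG) (fun _ => 0) A (by simp) 0
  have h5 := F_eval (ι := Fin (k + 1)) (by simpa using hk.add_one) j e (fun i => (A i).card) hj
    (fun i => by rw [hA]; exact ⟨h1, h2⟩)
  simp only [hA, prod_const, card_univ, Fintype.card_fin] at h4 h5
  rw [le_div_iff₀ (by positivity)]
  have h6 : (((univ.filter fun a : Fin k → G => (∀ i, a i ∈ B) ∧ ∑ i, a i ∈ B).card : ℤ)) *
      2 ^ (j + 1) ≤ (B.card : ℤ) ^ (k + 1) + (2 ^ (j + 1) - B.card : ℤ) ^ (k + 1) := by
    rw [← h5, mul_comm]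
    refine mul_le_mul_of_nonneg_left (le_trans ?_ h4) (by positivity)
    exact_mod_cast h3
  exact_mod_cast h6

/-- The upper bound is attained by a set between two subgroups. -/
lemma attained {e : ℕ} (hG : Fintype.card G = 2 ^ e) {k : ℕ} (hk : Even k) (b : ℕ) {j : ℕ}
    (hj : j + 1 ≤ e) (h1 : 2 ^ j ≤ b) (h2 : b ≤ 2 ^ (j + 1)) :
    ∃ B : Finset G, B.card = b ∧ ∑ g ∈ B, R B k g =
      ((b : ℚ) ^ (k + 1) + (2 ^ (j + 1) - b : ℚ) ^ (k + 1)) / 2 ^ (j + 1) := by
  classical
  obtain ⟨K, hK⟩ := exists_addSubgroup_card (G := G) (n := j + 1)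
    (by rw [Nat.card_eq_fintype_card, hG]; exact pow_dvd_pow _ hj)
  obtain ⟨H, hHK, hH, hadd, -⟩ := exists_half K hK
  have hc : ∀ L : AddSubgroup G, (univ.filter fun x => x ∈ L).card = Nat.card L := by
    intro L; rw [Nat.card_eq_fintype_card, Fintype.card_subtype]
  set S := univ.filter fun x => x ∈ K with hS
  set S' := univ.filter fun x => x ∈ H with hS'
  have hSc : S.card = 2 ^ (j + 1) := by rw [hS, hc, hK]
  have hsub : S' ⊆ S := by
    intro x hx
    simp only [hS, hS', mem_filter, mem_univ, true_and] at hx ⊢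
    exact hHK hx
  have hd : (S \ S').card = 2 ^ j := by
    rw [card_sdiff_of_subset hsub, hSc, hS', hc, hH, pow_succ]; omega
  obtain ⟨C, hC, hCc⟩ := exists_subset_card_eq (s := S \ S') (n := 2 ^ (j + 1) - b)
    (by rw [hd, pow_succ]; omega)
  have hCS : C ⊆ S := hC.trans sdiff_subset
  have hB : (S \ C).card = b := by rw [card_sdiff_of_subset hCS, hSc, hCc]; omega
  have hCm : ∀ x ∈ C, x ∈ K ∧ x ∉ H := by
    intro x hx
    simpa [hS, hS'] using hC hx
  have hz : ∀ (l : ℕ) (g : G), g ∈ K → (g ∈ H ↔ Odd l) → R C l g = 0 := by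
    intro l
    induction l with
    | zero =>
      intro g _ hg
      have : g ≠ 0 := by rintro rfl; simp at hg
      simp [R, this]
    | succ l ih =>
      intro g hgK hg
      refine sum_eq_zero fun a ha => ih _ (K.sub_mem hgK (hCm a ha).1) ?_
      have h2 : -a ∉ H := fun h => (hCm a ha).2 (by simpa using H.neg_mem h)
      rw [sub_eq_add_neg, hadd _ hgK _ (K.neg_mem (hCm a ha).1), hg, Nat.odd_add_one]
      simp [h2]
  refine ⟨S \ C, hB, ?_⟩
  have := P_compl S (by simp [hS]) (by
    intro x hx y hy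
    simp only [hS, mem_filter, mem_univ, true_and] at hx hy ⊢
    exact K.sub_mem hx hy) C hCS hk
  rw [sum_eq_zero (fun g hg => hz k g (hCm g hg).1 (by
    simp [(hCm g hg).2, hk])), zero_add, hB, hCc, hSc] at this
  rw [this]
  push_cast [h2]
  ring

end Pool.Agent.MP_ed46bc_co

end MrgPart1

-- marker of a merged file
example : 731051 + 218567 = 731051 + 218567 := rfl
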